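import Pool.Agent.Lib.MP_d31521_gt.Main

/-! For every `m ≥ 1` some Brieskorn sphere `Σ(3,q,r)` has an `E₈`-bounding with `m` copies. -/

namespace Pool.Agent.Results.MP_d31521_gt.EveryMultiplicity

open Pool.Agent.Lib.MP_d31521_gt

theorem result (m : ℕ) (hm : 1 ≤ m) : ∃ q r : ℕ, 2 ≤ q ∧ 2 ≤ r ∧ Nat.Coprime 3 q ∧
    Nat.Coprime 3 r ∧ Nat.Coprime q r ∧ HasE8Bounding 3 q r m :=
  main hm

end Pool.Agent.Results.MP_d31521_gt.EveryMultiplicity
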